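import Pool.Agent.J4H99.PK.InterTop

/-!
# Times of the critical interface which are fast, slow, thick and thin at once

Critical bond percolation (`q = 1`) on `δ ℤ²` in a rectangle `D = (-A, B) × (0, H)`, with the
counterclockwise boundary arc from `a = t + i H` to `b = 0` wired and the other one dual-wired. The
interface is parametrised by its number of steps: `Rect.curve` is the piecewise linear curve on
`[0, 1]` run at constant speed, and `Rect.time` is the number of steps times `δ ^ (7/4)`; `Rect.law`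
is the law of (curve, time). Weak limits exist along a subsequence of every sequence of meshes.

Let `p = (f, T)` be a sample of a weak limit. The sets of the `α`-fast, the `β`-slow, the `γ`-thick
and the `θ`-thin times (definitions below; each property is required at arbitrarily small scales)
have dimension `1 - Θ(α ^ (7/3))`, `1 - Θ(β ^ (-14))`, `1 - Θ(γ ^ 8)` and `1 - Θ(θ ^ (-4/3))`. Their
intersection is as large as it can be: there are universal constants such that in every rectangle,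
for every weak limit, almost surely, simultaneously for all `α ≤ α₀`, `β ≥ β₀`, `γ ≤ γ₀`, `θ ≥ θ₀`
and all `s < t`, the times in `[s, t]` which are at once `α`-fast, `β`-slow, `γ`-thick and `θ`-thin
have dimension between `1 - C m` and `1 - c m`, `m = max (α ^ (7/3), β ^ (-14), γ ^ 8, θ ^ (-4/3))`,
and their images have dimension between `7/4 (1 - C m)` and `7/4 (1 - c m)`. At these times both the
displacements and the occupation times of centred discs oscillate, from scale to scale, between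
their extreme orders
`h ^ (4/7) (log (1/h)) ^ (-1/14)` and `h ^ (4/7) (log (1/h)) ^ (3/7)`,
`r ^ (7/4) (log (1/r)) ^ (-3/4)` and `r ^ (7/4) (log (1/r)) ^ (1/8)`.

Definitions: `occ`, `Fast`, `Slow`, `Thick`, `Thin`, `cod` below; `Pool.Agent.H984R4.NP.Model`
(`Rect`, `pos`, `clamp`, `pl`, `X`, `Rect.dm`, `Rect.curve`, `Rect.time`, `Rect.law`),
`Pool.Agent.H984R4.NP.Defs` (`Dm`, `Dm.edges`, `Dm.wir`, `Dm.cfg`, `Dm.walk`, `Dm.len`) and
`Pool.Agent.H984R3.Per.Defs` (states, `ae`, `mv`, `rt`, `nxt`, `orb`).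

Plan of the proof. Each of the four sets contains, in every arc in the interior of the rectangle, a
limsup of sets which are ubiquitous at all small scales (for the thin times this is new, see
`ThinTimes`); a Cantor construction which uses the four families in turn gives the lower bound.
-/

set_option autoImplicit false

namespace Pool.Agent.Results.MP_216314_pr.ExceptionalTimesAtOnce

open H984N MeasureTheory Filter Topology

/-- the natural time spent by `p = (f, T)` in the closed disc of radius `r` around `f u` -/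
noncomputable def occ (p : X) (u : unitInterval) (r : ℝ) : ℝ :=
  p.2 * (volume {v : unitInterval | dist (p.1 v) (p.1 u) ≤ r}).toReal

/-- `u` is an `α`-fast time: for arbitrarily small `h` there is a time `v` with `T |v - u| ≤ h` and
`|f v - f u| ≥ α h ^ (4/7) (log (1/h)) ^ (3/7)`. -/
def Fast (α : ℝ) (p : X) (u : unitInterval) : Prop :=
  ∃ᶠ h : ℝ in 𝓝[>] 0, ∃ v : unitInterval, p.2 * |(v : ℝ) - u| ≤ h ∧
    α * (h ^ (4/7 : ℝ) * Real.log (1 / h) ^ (3/7 : ℝ)) ≤ dist (p.1 v) (p.1 u)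

/-- `u` is a `β`-slow time: for arbitrarily small `h`, `|f v - f u|` is at most
`β h ^ (4/7) (log (1/h)) ^ (-1/14)` for all times `v` with `T |v - u| ≤ h`. -/
def Slow (β : ℝ) (p : X) (u : unitInterval) : Prop :=
  ∃ᶠ h : ℝ in 𝓝[>] 0, ∀ v : unitInterval, p.2 * |(v : ℝ) - u| ≤ h →
    dist (p.1 v) (p.1 u) ≤ β * (h ^ (4/7 : ℝ) / Real.log (1 / h) ^ (1/14 : ℝ))

/-- `u` is a `γ`-thick time: for arbitrarily small `r` the natural time spent in the disc of radius
`r` around `f u` is at least `γ r ^ (7/4) (log (1/r)) ^ (1/8)`. -/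
def Thick (γ : ℝ) (p : X) (u : unitInterval) : Prop :=
  ∃ᶠ r : ℝ in 𝓝[>] 0, γ * (r ^ (7/4 : ℝ) * Real.log (1 / r) ^ (1/8 : ℝ)) ≤ occ p u r

/-- `u` is a `θ`-thin time: for arbitrarily small `r` the natural time spent in the disc of radius
`r` around `f u` is at most `θ r ^ (7/4) (log (1/r)) ^ (-3/4)`. -/
def Thin (θ : ℝ) (p : X) (u : unitInterval) : Prop :=
  ∃ᶠ r : ℝ in 𝓝[>] 0, occ p u r ≤ θ * (r ^ (7/4 : ℝ) / Real.log (1 / r) ^ (3/4 : ℝ))

/-- `max (α ^ (7/3), β ^ (-14), γ ^ 8, θ ^ (-4/3))` -/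
noncomputable def cod (α β γ θ : ℝ) : ℝ :=
  max (max (α ^ (7/3 : ℝ)) (1 / β ^ 14)) (max (γ ^ 8) (1 / θ ^ (4/3 : ℝ)))

theorem result : ∃ c C α₀ β₀ γ₀ θ₀ : ℝ, 0 < c ∧ 0 < C ∧ 0 < α₀ ∧ 0 < β₀ ∧ 0 < γ₀ ∧ 0 < θ₀ ∧
    C * cod α₀ β₀ γ₀ θ₀ < 1 ∧ ∀ R : Rect,
    (∀ δ : ℕ → ℝ, (∀ i, 0 < δ i) → Tendsto δ atTop (𝓝 0) →
      ∃ φ : ℕ → ℕ, StrictMono φ ∧ ∃ μ : ProbabilityMeasure X,
        Tendsto (fun i => R.law (δ (φ i))) atTop (𝓝 μ)) ∧
    ∀ δ : ℕ → ℝ, (∀ i, 0 < δ i) → Tendsto δ atTop (𝓝 0) → ∀ μ : ProbabilityMeasure X,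
      Tendsto (fun i => R.law (δ i)) atTop (𝓝 μ) →
      ∀ᵐ p ∂(μ : Measure X), 0 < p.2 ∧
        ∀ α β γ θ : ℝ, 0 < α → α ≤ α₀ → β₀ ≤ β → 0 < γ → γ ≤ γ₀ → θ₀ ≤ θ →
          ∀ s t : unitInterval, s < t →
            (ENNReal.ofReal (1 - C * cod α β γ θ) ≤ dimH {u | u ∈ Set.Icc s t ∧
                Fast α p u ∧ Slow β p u ∧ Thick γ p u ∧ Thin θ p u} ∧
              dimH {u | u ∈ Set.Icc s t ∧
                Fast α p u ∧ Slow β p u ∧ Thick γ p u ∧ Thin θ p u} ≤
                ENNReal.ofReal (1 - c * cod α β γ θ)) ∧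
            (ENNReal.ofReal (7 / 4 * (1 - C * cod α β γ θ)) ≤
                dimH (p.1 '' {u | u ∈ Set.Icc s t ∧
                  Fast α p u ∧ Slow β p u ∧ Thick γ p u ∧ Thin θ p u}) ∧
              dimH (p.1 '' {u | u ∈ Set.Icc s t ∧
                Fast α p u ∧ Slow β p u ∧ Thick γ p u ∧ Thin θ p u}) ≤
                ENNReal.ofReal (7 / 4 * (1 - c * cod α β γ θ))) := by
  obtain ⟨c, C, α0, β0, γ0, θ0, hc, hC, h1, h2, h3, h4, h5, h⟩ := Pool.Agent.J4H99.PK.inter_top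
  refine ⟨c, C, α0, β0, γ0, θ0, hc, hC, h1, h2, h3, h4, h5, fun R => ⟨(h R).1,
    fun δ hδ hlim μ hμ => ?_⟩⟩
  filter_upwards [(h R).2 δ hδ hlim μ hμ] with p hp
  obtain ⟨hp0, hdim, hall⟩ := hp
  refine ⟨hp0, fun α β γ θ a1 a2 a3 a4 a5 a6 s t hst => ?_⟩
  obtain ⟨g1, g2⟩ := hall α β γ θ a1 a2 a3 a4 a5 a6 s t hst
  have e1 : {u | u ∈ Set.Icc s t ∧ Fast α p u ∧ Slow β p u ∧ Thick γ p u ∧ Thin θ p u} =
      Set.Icc s t ∩ (Pool.Agent.Y995.TP.Ft α p ∩ Pool.Agent.R965.ST.Sl β p ∩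
        (Pool.Agent.Y995.TP.Th γ p ∩ Pool.Agent.J4H99.PK.Thin θ p)) := by
    ext u
    constructor
    · rintro ⟨b1, b2, b3, b4, b5⟩
      exact ⟨b1, ⟨b2, b3⟩, ⟨b4, b5⟩⟩
    · rintro ⟨b1, ⟨b2, b3⟩, ⟨b4, b5⟩⟩
      exact ⟨b1, b2, b3, b4, b5⟩
  have e3 : (7 / 4 : ENNReal) = ENNReal.ofReal (7 / 4) := by
    rw [ENNReal.ofReal_div_of_pos (by norm_num)]
    norm_num
  rw [e1, hdim, e3, ENNReal.ofReal_mul (by norm_num), ENNReal.ofReal_mul (by norm_num)]
  exact ⟨⟨g1, g2⟩, mul_le_mul_right g1 _, mul_le_mul_right g2 _⟩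

end Pool.Agent.Results.MP_216314_pr.ExceptionalTimesAtOnce
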