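import Pool.Agent.J4H99.PK.Top

/-!
# The exact packing gauge of the critical interface

Critical bond percolation (`q = 1`) on `δ ℤ²` in a rectangle `D = (-A, B) × (0, H)`, with the
counterclockwise boundary arc from `a = t + i H` to `b = 0` wired and the other one dual-wired. The
interface is parametrised by its number of steps: `Rect.curve` is the piecewise linear curve on
`[0, 1]` run at constant speed, and `Rect.time` is the number of steps times `δ ^ (7/4)`; `Rect.law`
is the law of (curve, time). Weak limits exist along a subsequence of every sequence of meshes.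

For every weak limit `p = (f, T)`, almost surely, the packing measure with the gauge function
`r ^ (7/4) (log log (1/r)) ^ (-3/4)` of the image `f '' S` of EVERY set `S` of times is between
`c T |S|` and `C T |S|`, with universal constants `c`, `C` (the same for all rectangles, all limits
and all realisations). So the packing measure is infinite on all `f '' S`, `|S| > 0`, for every
larger gauge, in particular for `r ^ (7/4)`, and zero on the whole curve for every smaller gauge.
Moreover at almost every time `t` the lower limit, as `r → 0`, of the natural time spent in the disc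
of radius `r` around `f t`, divided by the gauge, is between `c` and `C`. (The exact Hausdorff gauge
is `r ^ (7/4) (log log (1/r)) ^ (1/8)`, in the starting files.)

Definitions: `gauge`, `packPre`, `packing` below; `Pool.Agent.H984R4.NP.Model` (`Rect`, `pos`,
`clamp`, `pl`, `X`, `Rect.dm`, `Rect.curve`, `Rect.time`, `Rect.law`), `Pool.Agent.H984R4.NP.Defs`
(`Dm`, `Dm.edges`, `Dm.wir`, `Dm.cfg`, `Dm.walk`, `Dm.len`) and `Pool.Agent.H984R3.Per.Defs`
(states, `ae`, `mv`, `rt`, `nxt`, `orb`).

Plan of the proof. The thin discs are produced in pieces of the interface which cross a distance `w`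
within the natural time `w ^ (7/4) (log log (1/w)) ^ (-3/4)` and such that at no time at all (also
not in the past or in the future of the piece) the interface spends more than this time in a disc of
radius `w / 4` around the start of the piece. For this a block of `2 k` squares is explored: a long
tube with `k` cells is crossed by the interface, protected by circuits at a distance from its start
which separate this start from all the rest of the exploration. Such trials have probability at
least `exp (- K k)`, and a recursion over the scales `w` finds good pieces which cover a positive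
proportion of the natural time of every piece; Lebesgue density then gives the thin discs at almost
every time, and a Vitali covering argument gives the lower bound. The upper bound is deduced from
the exact `ψ`-variation of the interface, in the starting files.
-/

set_option autoImplicit false

namespace Pool.Agent.Results.MP_216314_pr.PackingGauge

open H984N MeasureTheory Filter Topology
open scoped ENNReal

/-- The gauge function `r ^ (7/4) (log log (1/r)) ^ (-3/4)` of the radius. -/
noncomputable def gauge (r : ℝ) : ℝ := r ^ (7/4 : ℝ) / Real.log (Real.log (1 / r)) ^ (3/4 : ℝ)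

/-- Packing premeasure of `E` with the gauge `g` of the radius: the limit, as `δ → 0`, of the
supremum of `∑ i, g (r i)` over the finite families of disjoint closed discs with centres `x i` in
`E` and radii `r i < δ`. -/
noncomputable def packPre (g : ℝ → ℝ≥0∞) (E : Set ℂ) : ℝ≥0∞ :=
  ⨅ δ : ℝ, ⨅ _ : 0 < δ, ⨆ n : ℕ, ⨆ x : Fin n → ℂ, ⨆ r : Fin n → ℝ,
    ⨆ _ : (∀ i, x i ∈ E ∧ 0 < r i ∧ r i < δ) ∧ ∀ i j, i ≠ j →
      Disjoint (Metric.closedBall (x i) (r i)) (Metric.closedBall (x j) (r j)),
    ∑ i, g (r i)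

/-- Packing measure of `E` with the gauge `g`: the infimum of `∑' n, packPre g (A n)` over the
countable covers of `E`. -/
noncomputable def packing (g : ℝ → ℝ≥0∞) (E : Set ℂ) : ℝ≥0∞ :=
  ⨅ A : ℕ → Set ℂ, ⨅ _ : E ⊆ ⋃ n, A n, ∑' n, packPre g (A n)

theorem result : ∃ c C : ℝ, 0 < c ∧ 0 < C ∧ ∀ R : Rect,
    (∀ δ : ℕ → ℝ, (∀ i, 0 < δ i) → Tendsto δ atTop (𝓝 0) →
      ∃ φ : ℕ → ℕ, StrictMono φ ∧ ∃ μ : ProbabilityMeasure X,
        Tendsto (fun i => R.law (δ (φ i))) atTop (𝓝 μ)) ∧
    ∀ δ : ℕ → ℝ, (∀ i, 0 < δ i) → Tendsto δ atTop (𝓝 0) → ∀ μ : ProbabilityMeasure X,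
      Tendsto (fun i => R.law (δ i)) atTop (𝓝 μ) →
      ∀ᵐ p ∂(μ : Measure X), 0 < p.2 ∧
        (∀ S : Set unitInterval,
          ENNReal.ofReal (c * p.2) * volume S ≤
            packing (fun r => ENNReal.ofReal (gauge r)) (p.1 '' S) ∧
          packing (fun r => ENNReal.ofReal (gauge r)) (p.1 '' S) ≤
            ENNReal.ofReal (C * p.2) * volume S) ∧
        (∀ S : Set unitInterval, volume S ≠ 0 →
          packing (fun r => ENNReal.ofReal (r ^ (7/4 : ℝ))) (p.1 '' S) = ⊤) ∧
        (∀ g : ℝ → ℝ≥0∞, (∀ M : ℕ, ∀ᶠ r : ℝ in 𝓝[>] 0, M * ENNReal.ofReal (gauge r) ≤ g r) →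
          ∀ S : Set unitInterval, volume S ≠ 0 → packing g (p.1 '' S) = ⊤) ∧
        (∀ g : ℝ → ℝ≥0∞, (∀ M : ℕ, ∀ᶠ r : ℝ in 𝓝[>] 0, M * g r ≤ ENNReal.ofReal (gauge r)) →
          packing g (Set.range p.1) = 0) ∧
        ∀ᵐ t : unitInterval,
          (∀ᶠ r : ℝ in 𝓝[>] 0,
            c * gauge r ≤ p.2 * (volume {u : unitInterval | dist (p.1 u) (p.1 t) ≤ r}).toReal) ∧
          ∃ᶠ r : ℝ in 𝓝[>] 0,
            p.2 * (volume {u : unitInterval | dist (p.1 u) (p.1 t) ≤ r}).toReal ≤ C * gauge r := by
  obtain ⟨c, C, c', C', hc, hC, hc', hC', h⟩ := Pool.Agent.J4H99.PK.pk_top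
  refine ⟨min c c', max C C', lt_min hc hc', lt_max_of_lt_left hC, fun R => ?_⟩
  obtain ⟨h1, h2⟩ := h R
  refine ⟨h1, fun δ hδ hlim μ hμ => ?_⟩
  filter_upwards [h2 δ hδ hlim μ hμ] with p hp
  obtain ⟨hp0, hS, hlo, hLI⟩ := hp
  have hgx : ∀ r : ℝ, 0 < r → r < Real.exp (-Real.exp 1) →
      gauge r = Pool.Agent.Y41.EV.psi r := by
    intro r h0 h3
    unfold gauge Pool.Agent.Y41.EV.psi Pool.Agent.Y41.EV.ll
    rw [max_eq_right (Pool.Agent.J4H74.PK.loglog_ge h0 h3)]
  have hgex : ∀ E : Set ℂ, packing (fun r => ENNReal.ofReal (gauge r)) E =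
      Pool.Agent.J4H99.PK.pack Pool.Agent.J4H99.PK.gps E :=
    fun E => Pool.Agent.J4H74.PK.t_GEX E
  have hpk : ∀ (g : ℝ → ℝ≥0∞) (E : Set ℂ), packing g E = Pool.Agent.J4H99.PK.pack g E :=
    fun g E => rfl
  have hcc : ∀ S : Set unitInterval, ENNReal.ofReal (min c c' * p.2) * volume S ≤
      packing (fun r => ENNReal.ofReal (gauge r)) (p.1 '' S) := by
    intro S
    rw [hgex]
    refine le_trans ?_ (hS S).1
    gcongr
    exact min_le_left _ _
  have hCC : ∀ S : Set unitInterval, packing (fun r => ENNReal.ofReal (gauge r)) (p.1 '' S) ≤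
      ENNReal.ofReal (max C C' * p.2) * volume S := by
    intro S
    rw [hgex]
    refine (hS S).2.trans ?_
    gcongr
    exact le_max_left _ _
  have hev : ∀ {P : ℝ → Prop}, (∀ᶠ r : ℝ in 𝓝[>] 0, P r) →
      ∃ δ0 : ℝ, 0 < δ0 ∧ ∀ r, 0 < r → r < δ0 → P r := by
    intro P hP
    rw [eventually_nhdsWithin_iff, Metric.eventually_nhds_iff] at hP
    obtain ⟨ε, hε, h3⟩ := hP
    refine ⟨ε, hε, fun r h4 h5 => h3 ?_ h4⟩
    rw [Real.dist_eq, sub_zero, abs_of_pos h4]
    exact h5
  refine ⟨hp0, fun S => ⟨hcc S, hCC S⟩, fun S hSv => ?_, fun g hg S hSv => ?_, fun g hg => ?_, ?_⟩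
  · exact Pool.Agent.J4H74.PK.t_P74 p.1 (c * p.2) (by positivity) (fun S => (hS S).1) S hSv
  · by_contra hne
    have h3 : packing (fun r => ENNReal.ofReal (gauge r)) (p.1 '' S) ≠ 0 := by
      intro h0
      have h4 := hcc S
      rw [h0] at h4
      have h5 : ENNReal.ofReal (min c c' * p.2) * volume S ≠ 0 := by
        refine mul_ne_zero ?_ hSv
        have : 0 < min c c' * p.2 := mul_pos (lt_min hc hc') hp0
        simpa using this
      exact h5 (nonpos_iff_eq_zero.1 h4)
    obtain ⟨n, hn⟩ := ENNReal.exists_nat_mul_gt h3 hne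
    obtain ⟨δ0, hδ0, h4⟩ := hev (hg n)
    have h5 := Pool.Agent.J4H74.PK.pack_le hδ0 h4 (p.1 '' S)
    exact absurd (hn.trans_le h5) (lt_irrefl _)
  · by_contra hne
    have h3 : packing (fun r => ENNReal.ofReal (gauge r)) (p.1 '' Set.univ) ≠ ⊤ :=
      ne_top_of_le_ne_top (ENNReal.mul_ne_top ENNReal.ofReal_ne_top (measure_ne_top _ _))
        (hCC Set.univ)
    rw [Set.image_univ] at h3
    obtain ⟨n, hn⟩ := ENNReal.exists_nat_mul_gt hne h3
    obtain ⟨δ0, hδ0, h4⟩ := hev (hg n)
    have h5 := Pool.Agent.J4H74.PK.pack_le hδ0 h4 (Set.range p.1)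
    exact absurd (hn.trans_le h5) (lt_irrefl _)
  · filter_upwards [hlo, hLI] with t ht1 ht2
    have hgp : ∀ᶠ r : ℝ in 𝓝[>] 0, gauge r = Pool.Agent.Y41.EV.psi r := by
      have : Set.Ioo (0:ℝ) (Real.exp (-Real.exp 1)) ∈ 𝓝[>] (0:ℝ) :=
        Ioo_mem_nhdsGT (Real.exp_pos _)
      filter_upwards [this] with r hr
      exact hgx r hr.1 hr.2
    have hpsi : ∀ r : ℝ, 0 ≤ Pool.Agent.Y41.EV.psi r ∨ r < 0 := by
      intro r
      rcases le_or_gt 0 r with h0 | h0
      · left
        unfold Pool.Agent.Y41.EV.psi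
        have := Pool.Agent.Y41.EV.ll_ge r
        positivity
      · right
        exact h0
    refine ⟨?_, ?_⟩
    · filter_upwards [ht1, hgp, self_mem_nhdsWithin] with r h3 h4 h5
      rw [h4]
      refine le_trans ?_ h3
      have h6 : 0 ≤ Pool.Agent.Y41.EV.psi r := (hpsi r).resolve_right (not_lt.2 (le_of_lt h5))
      exact mul_le_mul_of_nonneg_right (min_le_right _ _) h6
    · rw [frequently_iff]
      intro U hU
      obtain ⟨δ0, hδ0, h3⟩ := hev (inter_mem hU hgp)
      obtain ⟨r, hr0, hr1, hr2⟩ := ht2 δ0 hδ0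
      obtain ⟨h4, h5⟩ := h3 r hr0 hr1
      refine ⟨r, h4, ?_⟩
      have h5' : gauge r = Pool.Agent.Y41.EV.psi r := h5
      rw [h5']
      have h6 : 0 ≤ Pool.Agent.Y41.EV.psi r := (hpsi r).resolve_right (not_lt.2 hr0.le)
      refine le_trans ?_ (hr2.trans (mul_le_mul_of_nonneg_right (le_max_right C C') h6))
      have h7 : (volume {u : unitInterval | dist (p.1 u) (p.1 t) ≤ r}).toReal ≤
          (volume {u : unitInterval | dist (p.1 u) (p.1 t) ≤ 5 * r}).toReal := by
        refine ENNReal.toReal_mono (measure_ne_top _ _) (measure_mono fun u hu => ?_)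
        have hu' : dist (p.1 u) (p.1 t) ≤ r := hu
        show dist (p.1 u) (p.1 t) ≤ 5 * r
        linarith
      exact mul_le_mul_of_nonneg_left h7 hp0.le

end Pool.Agent.Results.MP_216314_pr.PackingGauge
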