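import Pool.Agent.J4H99.PK.ThinTop

/-!
# The smallest occupation time of discs centred on the critical interface

Critical bond percolation (`q = 1`) on `δ ℤ²` in a rectangle `D = (-A, B) × (0, H)`, with the
counterclockwise boundary arc from `a = t + i H` to `b = 0` wired and the other one dual-wired. The
interface is parametrised by its number of steps: `Rect.curve` is the piecewise linear curve on
`[0, 1]` run at constant speed, and `Rect.time` is the number of steps times `δ ^ (7/4)`; `Rect.law`
is the law of (curve, time). Weak limits exist along a subsequence of every sequence of meshes.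

Let `p = (f, T)` be a sample of a weak limit, let `occ p u r = T |{v : |f v - f u| ≤ r}|` be the
natural time which the interface spends (before and after the time `u`) in the disc of radius `r`
around `f u`, and let `v(r) = r ^ (7/4) (log (1/r)) ^ (-3/4)`. There are universal constants `c`,
`C` such that in every rectangle, for every weak limit, almost surely, for all small `r`:
`occ p u r ≥ c v(r)` for all times `u`, and in every interval of times there is a time `u` with
`occ p u r ≤ C v(r)`. So the smallest occupation time of centred discs, over all times and over the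
times of any fixed interval, has the exact order `v(r)`. (The largest one has the order
`r ^ (7/4) (log (1/r)) ^ (1/8)`, in the starting files; at typical times the lower limit has the
order `r ^ (7/4) (log log (1/r)) ^ (-3/4)`, see `PackingGauge`.)

Definitions: `occ`, `vv` below; `Pool.Agent.H984R4.NP.Model` (`Rect`, `pos`, `clamp`, `pl`,
`X`, `Rect.dm`, `Rect.curve`, `Rect.time`, `Rect.law`), `Pool.Agent.H984R4.NP.Defs` (`Dm`,
`Dm.edges`, `Dm.wir`, `Dm.cfg`, `Dm.walk`, `Dm.len`) and `Pool.Agent.H984R3.Per.Defs` (states, `ae`,
`mv`, `rt`, `nxt`, `orb`).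

Plan of the proof. The lower bound follows from the estimates of the displacements in the starting
files. The upper bound needs places where the interface crosses a distance `w` quickly and to which
it comes close neither before nor afterwards: they are produced by the trial of
`Pool.Agent.J4H99.PK`, a tube with `k` cells which is crossed by the interface, protected by
circuits which separate the start of the tube from the rest of the exploration, of probability at
least `exp (-K k)`; with `k ~ q log (1/w)` there are such places in every piece of the interface.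
-/

set_option autoImplicit false

namespace Pool.Agent.Results.MP_216314_pr.SmallestOccupation

open H984N MeasureTheory Filter Topology

/-- `v(r) = r ^ (7/4) (log (1/r)) ^ (-3/4)` -/
noncomputable def vv (r : ℝ) : ℝ := r ^ (7/4 : ℝ) / Real.log (1 / r) ^ (3/4 : ℝ)

/-- the natural time spent by `p = (f, T)` in the closed disc of radius `r` around `f u` -/
noncomputable def occ (p : X) (u : unitInterval) (r : ℝ) : ℝ :=
  p.2 * (volume {v : unitInterval | dist (p.1 v) (p.1 u) ≤ r}).toReal

theorem result : ∃ c C : ℝ, 0 < c ∧ 0 < C ∧ ∀ R : Rect,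
    (∀ δ : ℕ → ℝ, (∀ i, 0 < δ i) → Tendsto δ atTop (𝓝 0) →
      ∃ φ : ℕ → ℕ, StrictMono φ ∧ ∃ μ : ProbabilityMeasure X,
        Tendsto (fun i => R.law (δ (φ i))) atTop (𝓝 μ)) ∧
    ∀ δ : ℕ → ℝ, (∀ i, 0 < δ i) → Tendsto δ atTop (𝓝 0) → ∀ μ : ProbabilityMeasure X,
      Tendsto (fun i => R.law (δ i)) atTop (𝓝 μ) →
      ∀ᵐ p ∂(μ : Measure X), 0 < p.2 ∧
        (∀ᶠ r : ℝ in 𝓝[>] 0, ∀ u : unitInterval, c * vv r ≤ occ p u r) ∧
        (∀ s t : unitInterval, s < t → ∀ᶠ r : ℝ in 𝓝[>] 0, ∃ u : unitInterval, u ∈ Set.Icc s t ∧
          occ p u r ≤ C * vv r) := by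
  obtain ⟨_, _, _, c1, C1, _, _, _, _, hc1, hC1, h⟩ := Pool.Agent.J4H99.PK.thin_top
  refine ⟨c1, C1, hc1, hC1, fun R => ⟨(h R).1, fun δ hδ hlim μ hμ => ?_⟩⟩
  filter_upwards [(h R).2 δ hδ hlim μ hμ] with p hp
  obtain ⟨hp0, -, hlo, hup, -⟩ := hp
  refine ⟨hp0, hlo, fun s t hst => ?_⟩
  filter_upwards [hup s t hst] with r hr
  obtain ⟨u, h1, h2, h3⟩ := hr
  exact ⟨u, ⟨h1, h2⟩, h3⟩

end Pool.Agent.Results.MP_216314_pr.SmallestOccupation
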