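import Pool.Agent.J4H99.PK.ThinTop

/-!
# Thin times of the critical interface: dimension `1 - Θ(θ ^ (-4/3))`

Critical bond percolation (`q = 1`) on `δ ℤ²` in a rectangle `D = (-A, B) × (0, H)`, with the
counterclockwise boundary arc from `a = t + i H` to `b = 0` wired and the other one dual-wired. The
interface is parametrised by its number of steps: `Rect.curve` is the piecewise linear curve on
`[0, 1]` run at constant speed, and `Rect.time` is the number of steps times `δ ^ (7/4)`; `Rect.law`
is the law of (curve, time). Weak limits exist along a subsequence of every sequence of meshes.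

Let `p = (f, T)` be a sample of a weak limit, let `occ p u r = T |{v : |f v - f u| ≤ r}|` be the
natural time which the interface spends (before and after the time `u`) in the disc of radius `r`
around `f u`, and let `v(r) = r ^ (7/4) (log (1/r)) ^ (-3/4)`: this is the order of the smallest
occupation time of centred discs (`SmallestOccupation`), while at typical times the lower limit has
the order `r ^ (7/4) (log log (1/r)) ^ (-3/4)` (`PackingGauge`). A time `u` is `θ`-thin if
`occ p u r ≤ θ v(r)` for arbitrarily small `r`. There are universal constants `c`, `C`, `θ₀` such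
that in every rectangle, for every weak limit, almost surely, simultaneously for all `θ ≥ θ₀` and
all `s < t`, the `θ`-thin times in `[s, t]` have Hausdorff dimension between `1 - C θ ^ (-4/3)` and
`1 - c θ ^ (-4/3)`, and their images have Hausdorff dimension between `7/4 (1 - C θ ^ (-4/3))` and
`7/4 (1 - c θ ^ (-4/3))`.

Definitions: `occ`, `vv`, `Thin` below; `Pool.Agent.H984R4.NP.Model` (`Rect`, `pos`, `clamp`, `pl`,
`X`, `Rect.dm`, `Rect.curve`, `Rect.time`, `Rect.law`), `Pool.Agent.H984R4.NP.Defs` (`Dm`,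
`Dm.edges`, `Dm.wir`, `Dm.cfg`, `Dm.walk`, `Dm.len`) and `Pool.Agent.H984R3.Per.Defs` (states, `ae`,
`mv`, `rt`, `nxt`, `orb`).

Plan of the proof. Thin times are fast times, so the upper bound of the dimension follows from the
estimates of the displacements in the starting files. The lower bound needs places where the
interface crosses a distance `w` quickly and to which it comes close neither before nor afterwards:
they are produced by the trial of `Pool.Agent.J4H99.PK`, a tube with `k` cells which is crossed by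
the interface, protected by circuits which separate the start of the tube from the rest of the
exploration, of probability at least `exp (-K k)`; with `k ~ q log (1/w)` such places are ubiquitous
at the scale `w` up to the power `w ^ (-C q)`.
-/

set_option autoImplicit false

namespace Pool.Agent.Results.MP_216314_pr.ThinTimes

open H984N MeasureTheory Filter Topology

/-- `v(r) = r ^ (7/4) (log (1/r)) ^ (-3/4)` -/
noncomputable def vv (r : ℝ) : ℝ := r ^ (7/4 : ℝ) / Real.log (1 / r) ^ (3/4 : ℝ)

/-- the natural time spent by `p = (f, T)` in the closed disc of radius `r` around `f u` -/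
noncomputable def occ (p : X) (u : unitInterval) (r : ℝ) : ℝ :=
  p.2 * (volume {v : unitInterval | dist (p.1 v) (p.1 u) ≤ r}).toReal

/-- `u` is a `θ`-thin time of `p = (f, T)`: the natural time spent in the disc of radius `r` around
`f u` is at most `θ v(r)` for arbitrarily small `r > 0`. -/
def Thin (θ : ℝ) (p : X) (u : unitInterval) : Prop := ∃ᶠ r : ℝ in 𝓝[>] 0, occ p u r ≤ θ * vv r

theorem result : ∃ c C θ₀ : ℝ, 0 < c ∧ 0 < C ∧ 0 < θ₀ ∧ C / θ₀ ^ (4/3 : ℝ) < 1 ∧ ∀ R : Rect,
    (∀ δ : ℕ → ℝ, (∀ i, 0 < δ i) → Tendsto δ atTop (𝓝 0) →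
      ∃ φ : ℕ → ℕ, StrictMono φ ∧ ∃ μ : ProbabilityMeasure X,
        Tendsto (fun i => R.law (δ (φ i))) atTop (𝓝 μ)) ∧
    ∀ δ : ℕ → ℝ, (∀ i, 0 < δ i) → Tendsto δ atTop (𝓝 0) → ∀ μ : ProbabilityMeasure X,
      Tendsto (fun i => R.law (δ i)) atTop (𝓝 μ) →
      ∀ᵐ p ∂(μ : Measure X), 0 < p.2 ∧ ∀ θ : ℝ, θ₀ ≤ θ → ∀ s t : unitInterval, s < t →
        (ENNReal.ofReal (1 - C / θ ^ (4/3 : ℝ)) ≤ dimH {u | u ∈ Set.Icc s t ∧ Thin θ p u} ∧
          dimH {u | u ∈ Set.Icc s t ∧ Thin θ p u} ≤ ENNReal.ofReal (1 - c / θ ^ (4/3 : ℝ))) ∧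
        (ENNReal.ofReal (7 / 4 * (1 - C / θ ^ (4/3 : ℝ))) ≤
            dimH (p.1 '' {u | u ∈ Set.Icc s t ∧ Thin θ p u}) ∧
          dimH (p.1 '' {u | u ∈ Set.Icc s t ∧ Thin θ p u}) ≤
            ENNReal.ofReal (7 / 4 * (1 - c / θ ^ (4/3 : ℝ)))) := by
  obtain ⟨c, C, θ0, _, _, hc, hC, hθ0, hCθ, _, _, h⟩ := Pool.Agent.J4H99.PK.thin_top
  refine ⟨c, C, θ0, hc, hC, hθ0, hCθ, fun R => ⟨(h R).1, fun δ hδ hlim μ hμ => ?_⟩⟩
  filter_upwards [(h R).2 δ hδ hlim μ hμ] with p hp
  obtain ⟨hp0, hdim, -, -, hth⟩ := hp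
  refine ⟨hp0, fun θ hθ s t hst => ?_⟩
  obtain ⟨h1, h2⟩ := hth θ hθ
  have e1 : {u | u ∈ Set.Icc s t ∧ Thin θ p u} =
      Set.Icc s t ∩ Pool.Agent.J4H99.PK.Thin θ p := rfl
  have h3 : dimH (Set.Icc s t ∩ Pool.Agent.J4H99.PK.Thin θ p) ≤
      ENNReal.ofReal (1 - c / θ ^ (4/3 : ℝ)) :=
    (dimH_mono Set.inter_subset_right).trans h1
  have h4 := h2 s t hst
  have e3 : (7 / 4 : ENNReal) = ENNReal.ofReal (7 / 4) := by
    rw [ENNReal.ofReal_div_of_pos (by norm_num)]
    norm_num
  rw [e1, hdim, e3, ENNReal.ofReal_mul (by norm_num), ENNReal.ofReal_mul (by norm_num)]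
  exact ⟨⟨h4, h3⟩, mul_le_mul_right h4 _, mul_le_mul_right h3 _⟩

end Pool.Agent.Results.MP_216314_pr.ThinTimes
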